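import Mathlib

set_option autoImplicit false

open Real

namespace Pool.Agent.W_MP_1ab439_h2

theorem one_add_le_exp_sub {x : ℝ} (h0 : 0 ≤ x) (h1 : x ≤ 1 / 3) :
    1 + x ≤ exp (x - 7 / 18 * x ^ 2) := by
  set y : ℝ := x - 7 / 18 * x ^ 2 with hy
  have hy0 : 0 ≤ y := by
    rw [hy]
    nlinarith
  have h2 := Real.sum_le_exp_of_nonneg hy0 4
  have hs : ∑ m ∈ Finset.range 4, y ^ m / (m.factorial : ℝ) = 1 + y + y ^ 2 / 2 + y ^ 3 / 6 := by
    simp [Finset.sum_range_succ, Nat.factorial]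
  rw [hs] at h2
  refine le_trans ?_ h2
  have e : 1 + y + y ^ 2 / 2 + y ^ 3 / 6 - (1 + x) =
      x ^ 2 * (-(7 / 18) + (1 - 7 / 18 * x) ^ 2 / 2 + x * (1 - 7 / 18 * x) ^ 3 / 6) := by
    rw [hy]
    ring
  have h3 : 0 ≤ -(7 / 18) + (1 - 7 / 18 * x) ^ 2 / 2 + x * (1 - 7 / 18 * x) ^ 3 / 6 := by
    have ha : 0 ≤ 7 / 18 * x := by positivity
    have hb : 7 / 18 * x ≤ 1 := by linarith
    have h4 : 1 - 2 * (7 / 18 * x) ≤ (1 - 7 / 18 * x) ^ 2 := by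
      nlinarith [sq_nonneg (7 / 18 * x)]
    have h5 : 1 - 3 * (7 / 18 * x) ≤ (1 - 7 / 18 * x) ^ 3 := by
      nlinarith [mul_nonneg ha ha, mul_nonneg (mul_nonneg ha ha) (sub_nonneg.2 hb)]
    have h6 := mul_le_mul_of_nonneg_left h5 h0
    nlinarith
  have h7 := mul_nonneg (sq_nonneg x) h3
  linarith

theorem sqrt_pow_le (n : ℕ) (hn : 12 ≤ n) :
    √(((n : ℝ) + 4) / n) ^ n ≤ exp (2 - 28 / (9 * n)) := by
  have hn0 : (0 : ℝ) < n := by
    have : 0 < n := by omega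
    exact_mod_cast this
  have hn12 : (12 : ℝ) ≤ n := by exact_mod_cast hn
  have hx0 : 0 ≤ 4 / (n : ℝ) := by positivity
  have hx1 : 4 / (n : ℝ) ≤ 1 / 3 := by
    rw [div_le_iff₀ hn0]
    linarith
  have h1 := one_add_le_exp_sub hx0 hx1
  have h2 : ((n : ℝ) + 4) / n = 1 + 4 / n := by
    field_simp
  set y : ℝ := 4 / (n : ℝ) - 7 / 18 * (4 / (n : ℝ)) ^ 2 with hy
  have h3 : √(((n : ℝ) + 4) / n) ≤ exp (y / 2) := by
    rw [h2]
    calc √(1 + 4 / (n : ℝ)) ≤ √(exp y) := Real.sqrt_le_sqrt h1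
      _ = exp (y / 2) := by
        rw [show exp y = exp (y / 2) ^ 2 by
          rw [← Real.exp_nat_mul]
          congr 1
          push_cast
          ring, Real.sqrt_sq (Real.exp_pos _).le]
  calc √(((n : ℝ) + 4) / n) ^ n ≤ exp (y / 2) ^ n := pow_le_pow_left₀ (Real.sqrt_nonneg _) h3 n
    _ = exp (2 - 28 / (9 * n)) := by
      rw [← Real.exp_nat_mul]
      congr 1
      rw [hy]
      field_simp
      ring

theorem exp_half : exp (1 / 2) ≤ 1.64873 := by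
  have h1 : exp (1 / 2) ^ 2 = exp 1 := by
    rw [← Real.exp_nat_mul]
    norm_num
  have h2 := Real.exp_one_lt_d9
  refine le_of_sq_le_sq ?_ (by norm_num)
  rw [h1]
  linarith [show (2.7182818286 : ℝ) ≤ 1.64873 ^ 2 by norm_num]

theorem final_num (n : ℕ) (hn : 12 ≤ n) :
    1 / 2 * (((n : ℝ) + 4) / (n + 2)) * √(((n : ℝ) + 4) / n) ^ n * exp (-(3 / 2)) *
      (1 + 3 / ((n : ℝ) + 2) + 16 / (((n : ℝ) + 2) * ((n : ℝ) + 4))) ≤ 1 := by
  have hn0 : (0 : ℝ) < n := by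
    have : 0 < n := by omega
    exact_mod_cast this
  have hn12 : (12 : ℝ) ≤ n := by exact_mod_cast hn
  have h1 := sqrt_pow_le n hn
  have h2 : exp (2 - 28 / (9 * n)) * exp (-(3 / 2)) ≤ 1.64873 * (9 * n / (9 * n + 28)) := by
    rw [← Real.exp_add]
    have e : 2 - 28 / (9 * (n : ℝ)) + -(3 / 2) = 1 / 2 + -(28 / (9 * n)) := by ring
    rw [e, Real.exp_add]
    have h3 : exp (-(28 / (9 * (n : ℝ)))) ≤ 9 * n / (9 * n + 28) := by
      rw [Real.exp_neg]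
      have h4 := Real.add_one_le_exp (28 / (9 * (n : ℝ)))
      have h5 : 28 / (9 * (n : ℝ)) + 1 = (9 * n + 28) / (9 * n) := by
        field_simp
        ring
      rw [h5] at h4
      calc (exp (28 / (9 * (n : ℝ))))⁻¹ ≤ ((9 * n + 28) / (9 * (n : ℝ)))⁻¹ :=
            inv_anti₀ (by positivity) h4
        _ = 9 * n / (9 * n + 28) := by rw [inv_div]
    exact mul_le_mul exp_half h3 (Real.exp_pos _).le (by norm_num)
  have h6 : √(((n : ℝ) + 4) / n) ^ n * exp (-(3 / 2)) ≤ 1.64873 * (9 * n / (9 * n + 28)) :=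
    le_trans (mul_le_mul_of_nonneg_right h1 (Real.exp_pos _).le) h2
  have h7 : 1 / 2 * (((n : ℝ) + 4) / (n + 2)) *
      (1 + 3 / ((n : ℝ) + 2) + 16 / (((n : ℝ) + 2) * ((n : ℝ) + 4))) =
      1 / 2 * ((n ^ 2 + 9 * n + 36) / (n + 2) ^ 2) := by
    field_simp
    ring
  have h8 : 0 ≤ 1 / 2 * (((n : ℝ) ^ 2 + 9 * n + 36) / (n + 2) ^ 2) := by positivity
  calc _ = (1 / 2 * (((n : ℝ) + 4) / (n + 2)) *
      (1 + 3 / ((n : ℝ) + 2) + 16 / (((n : ℝ) + 2) * ((n : ℝ) + 4)))) *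
        (√(((n : ℝ) + 4) / n) ^ n * exp (-(3 / 2))) := by ring
    _ ≤ 1 / 2 * (((n : ℝ) ^ 2 + 9 * n + 36) / (n + 2) ^ 2) *
        (1.64873 * (9 * n / (9 * n + 28))) := by
      rw [h7]
      exact mul_le_mul_of_nonneg_left h6 h8
    _ ≤ 1 := by
      have h9 : 1 / 2 * (((n : ℝ) ^ 2 + 9 * n + 36) / (n + 2) ^ 2) *
          (1.64873 * (9 * n / (9 * n + 28))) =
          (1.64873 * 9 / 2 * (n * (n ^ 2 + 9 * n + 36))) / ((n + 2) ^ 2 * (9 * n + 28)) := by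
        field_simp
      rw [h9, div_le_one (by positivity)]
      obtain ⟨t, ht⟩ : ∃ t : ℝ, t = n - 12 := ⟨_, rfl⟩
      have ht0 : 0 ≤ t := by rw [ht]; linarith
      have hnt : (n : ℝ) = t + 12 := by rw [ht]; ring
      rw [hnt]
      have h10 : 0 ≤ t ^ 2 := by positivity
      have h11 : 0 ≤ t ^ 3 := by positivity
      nlinarith

end Pool.Agent.W_MP_1ab439_h2
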