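import Pool.Agent.W_MP_1ab439_h2.Rad

set_option autoImplicit false
set_option maxSynthPendingDepth 3

open MeasureTheory Real Filter Topology Set

namespace Pool.Agent.W_MP_1ab439_h2

open Pool.Agent.W_MP_1ab439_an

theorem exp_major {x : ℝ} (h0 : 0 ≤ x) (h1 : x ≤ 1) :
    exp (3 / 2 * x) ≤ 1 + 3 / 2 * x + 2 * x ^ 2 := by
  set v : ℝ := 3 / 4 * x with hv
  have hv0 : 0 ≤ v := by positivity
  have hv1 : v ≤ 3 / 4 := by rw [hv]; linarith
  have hb := Real.exp_bound' (x := v) hv0 (by linarith) (n := 4) (by norm_num)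
  have hs : ∑ m ∈ Finset.range 4, v ^ m / (m.factorial : ℝ) = 1 + v + v ^ 2 / 2 + v ^ 3 / 6 := by
    simp [Finset.sum_range_succ, Nat.factorial]
  rw [hs] at hb
  have hP : exp v ≤ 1 + v + v ^ 2 / 2 + v ^ 3 / 6 + v ^ 4 * 5 / 96 := by
    refine hb.trans (le_of_eq ?_)
    norm_num [Nat.factorial]
  have he : exp (3 / 2 * x) = exp v ^ 2 := by
    rw [← Real.exp_nat_mul]
    congr 1
    rw [hv]
    push_cast
    ring
  rw [he]
  have h2 : exp v ^ 2 ≤ (1 + v + v ^ 2 / 2 + v ^ 3 / 6 + v ^ 4 * 5 / 96) ^ 2 :=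
    pow_le_pow_left₀ (Real.exp_pos v).le hP 2
  refine h2.trans ?_
  have hx : x = 4 / 3 * v := by rw [hv]; ring
  have e1 : (1 + v + v ^ 2 / 2 + v ^ 3 / 6 + v ^ 4 * 5 / 96) ^ 2 =
      1 + 2 * v + v ^ 2 * (2 + 4 / 3 * v + (1 / 4 + 1 / 3 + 5 / 48) * v ^ 2 +
        (1 / 6 + 5 / 48) * v ^ 3 + (1 / 36 + 5 / 96) * v ^ 4 + 5 / 288 * v ^ 5 +
        25 / 9216 * v ^ 6) := by
    ring
  have e2 : 1 + 3 / 2 * x + 2 * x ^ 2 = 1 + 2 * v + v ^ 2 * (32 / 9) := by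
    rw [hx]
    ring
  rw [e1, e2]
  have hq : 2 + 4 / 3 * v + (1 / 4 + 1 / 3 + 5 / 48) * v ^ 2 +
        (1 / 6 + 5 / 48) * v ^ 3 + (1 / 36 + 5 / 96) * v ^ 4 + 5 / 288 * v ^ 5 +
        25 / 9216 * v ^ 6 ≤ 32 / 9 := by
    calc _ ≤ 2 + 4 / 3 * (3 / 4) + (1 / 4 + 1 / 3 + 5 / 48) * (3 / 4) ^ 2 +
        (1 / 6 + 5 / 48) * (3 / 4) ^ 3 + (1 / 36 + 5 / 96) * (3 / 4) ^ 4 +
        5 / 288 * (3 / 4) ^ 5 + 25 / 9216 * (3 / 4) ^ 6 := by gcongr
      _ ≤ (32 / 9 : ℝ) := by norm_num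
  nlinarith [mul_le_mul_of_nonneg_left hq (sq_nonneg v)]

variable {n : ℕ}

theorem gauss_le {b ρ : ℝ} (hρ : 0 < ρ) (hb : b * ρ ^ 2 = 3 / 2) (z : Eu n) :
    exp (-(b * ‖z‖ ^ 2)) ≤
      exp (-(3 / 2)) * (1 + 3 / 2 * (par (ρ ^ 2) z / ρ ^ 2) + 2 * (par (ρ ^ 2) z / ρ ^ 2) ^ 2) := by
  have hr2 : 0 < ρ ^ 2 := by positivity
  have hb0 : 0 < b := by
    by_contra h
    push Not at h
    nlinarith
  rcases le_or_gt (ρ ^ 2) (‖z‖ ^ 2) with h | h
  · have h1 : par (ρ ^ 2) z = 0 := max_eq_right (by linarith)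
    rw [h1, zero_div]
    have h2 : exp (-(b * ‖z‖ ^ 2)) ≤ exp (-(3 / 2)) := by
      apply Real.exp_le_exp.2
      have := mul_le_mul_of_nonneg_left h hb0.le
      linarith
    simpa using h2
  · have h1 : par (ρ ^ 2) z = ρ ^ 2 - ‖z‖ ^ 2 := max_eq_left (by linarith)
    rw [h1]
    set x : ℝ := (ρ ^ 2 - ‖z‖ ^ 2) / ρ ^ 2 with hx
    have hx0 : 0 ≤ x := div_nonneg (by linarith) hr2.le
    have hx1 : x ≤ 1 := by
      rw [hx, div_le_one hr2]
      nlinarith [sq_nonneg ‖z‖]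
    have e : exp (-(b * ‖z‖ ^ 2)) = exp (-(3 / 2)) * exp (3 / 2 * x) := by
      rw [← Real.exp_add]
      congr 1
      have : ‖z‖ ^ 2 = ρ ^ 2 * (1 - x) := by
        rw [hx]
        field_simp
        ring
      rw [this, ← mul_assoc, hb]
      ring
    rw [e]
    exact mul_le_mul_of_nonneg_left (exp_major hx0 hx1) (Real.exp_pos _).le

theorem bath (hn : 1 ≤ n) {G : Eu n → ℝ} (hG : Integrable G)
    (hG0 : ∀ z, 0 ≤ G z) {v b ρ : ℝ} (hv : 0 ≤ v) (hρ : 0 < ρ) (hb : b * ρ ^ 2 = 3 / 2)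
    (hC : ∀ z, G z ≤ v ^ 2) (hI : ∫ z, G z ≤ v) (hvol : tau n * ρ ^ n * v ≤ 1) :
    ∫ z, G z * exp (-(b * ‖z‖ ^ 2)) ≤
      exp (-(3 / 2)) * (v * (1 + 3 / ((n : ℝ) + 2) + 16 / (((n : ℝ) + 2) * ((n : ℝ) + 4)))) := by
  have hr2 : 0 < ρ ^ 2 := by positivity
  have hp1 : Integrable (fun z : Eu n => par (ρ ^ 2) z / ρ ^ 2) := (integrable_par _).div_const _
  have hp2 : Integrable (fun z : Eu n => (par (ρ ^ 2) z / ρ ^ 2) ^ 2) := by
    simp only [div_pow]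
    exact (integrable_par_sq _).div_const _
  have h1 : ∫ z, G z * exp (-(b * ‖z‖ ^ 2)) ≤ ∫ z, exp (-(3 / 2)) *
      (G z + 3 / 2 * v ^ 2 * (par (ρ ^ 2) z / ρ ^ 2) +
        2 * v ^ 2 * (par (ρ ^ 2) z / ρ ^ 2) ^ 2) := by
    refine integral_mono ?_ ?_ fun z => ?_
    · refine hG.mul_bdd (c := 1) ?_ ?_
      · refine Continuous.aestronglyMeasurable ?_
        fun_prop
      · refine Eventually.of_forall fun z => ?_
        rw [Real.norm_eq_abs, abs_of_pos (Real.exp_pos _), Real.exp_le_one_iff]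
        have hb0 : 0 < b := by
          by_contra h
          push Not at h
          nlinarith
        have : 0 ≤ b * ‖z‖ ^ 2 := by positivity
        linarith
    · exact (((hG.add (hp1.const_mul _)).add (hp2.const_mul _))).const_mul _
    · have h2 := gauss_le hρ hb z
      have hx0 : 0 ≤ par (ρ ^ 2) z / ρ ^ 2 := div_nonneg (par_nonneg _ _) hr2.le
      set x := par (ρ ^ 2) z / ρ ^ 2 with hx
      calc G z * exp (-(b * ‖z‖ ^ 2)) ≤ G z * (exp (-(3 / 2)) * (1 + 3 / 2 * x + 2 * x ^ 2)) :=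
            mul_le_mul_of_nonneg_left h2 (hG0 z)
        _ = exp (-(3 / 2)) * (G z + G z * (3 / 2 * x + 2 * x ^ 2)) := by ring
        _ ≤ exp (-(3 / 2)) * (G z + v ^ 2 * (3 / 2 * x + 2 * x ^ 2)) := by
            have h3 := mul_le_mul_of_nonneg_right (hC z)
              (show 0 ≤ 3 / 2 * x + 2 * x ^ 2 by positivity)
            have h4 := Real.exp_pos (-(3 / 2))
            exact mul_le_mul_of_nonneg_left (by linarith) h4.le
        _ = _ := by ring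
  refine h1.trans ?_
  have hGa : Integrable (fun z : Eu n => G z + 3 / 2 * v ^ 2 * (par (ρ ^ 2) z / ρ ^ 2)) :=
    hG.add (hp1.const_mul _)
  rw [integral_const_mul, integral_add hGa (hp2.const_mul _),
    integral_add hG (hp1.const_mul _), integral_const_mul, integral_const_mul, integral_div]
  simp only [div_pow]
  rw [integral_div, int_par n hn hρ.le, int_par_sq n hn hρ.le]
  refine mul_le_mul_of_nonneg_left ?_ (Real.exp_pos _).le
  have e1 : 3 / 2 * v ^ 2 * (tau n * (2 / ((n : ℝ) + 2)) * ρ ^ (n + 2) / ρ ^ 2) =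
      v * (3 / ((n : ℝ) + 2)) * (tau n * ρ ^ n * v) := by
    field_simp
    ring
  have e2 : 2 * v ^ 2 * (tau n * (8 / (((n : ℝ) + 2) * ((n : ℝ) + 4))) * ρ ^ (n + 4) /
      (ρ ^ 2) ^ 2) = v * (16 / (((n : ℝ) + 2) * ((n : ℝ) + 4))) * (tau n * ρ ^ n * v) := by
    field_simp
    ring
  rw [e1, e2]
  have h5 : v * (3 / ((n : ℝ) + 2)) * (tau n * ρ ^ n * v) ≤ v * (3 / ((n : ℝ) + 2)) :=
    mul_le_of_le_one_right (by positivity) hvol
  have h6 : v * (16 / (((n : ℝ) + 2) * ((n : ℝ) + 4))) * (tau n * ρ ^ n * v) ≤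
      v * (16 / (((n : ℝ) + 2) * ((n : ℝ) + 4))) :=
    mul_le_of_le_one_right (by positivity) hvol
  calc _ ≤ v + v * (3 / ((n : ℝ) + 2)) + v * (16 / (((n : ℝ) + 2) * ((n : ℝ) + 4))) := by
        linarith
    _ = _ := by ring

end Pool.Agent.W_MP_1ab439_h2
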