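import Pool.Agent.W_MP_1ab439_h2.Bath

set_option autoImplicit false
set_option maxSynthPendingDepth 3

open MeasureTheory SchwartzMap FourierTransform Real Filter Topology Set
open scoped SchwartzMap ENNReal ComplexConjugate Manifold ContDiff

namespace Pool.Agent.W_MP_1ab439_h2

open Pool.Agent.W_MP_1ab439_an

variable {n : ℕ} {Ω : Set (Eu n)} {lam : ℝ} {N : ℕ}

theorem exists_cutoff (S : Sys Ω lam N) (ho : IsOpen Ω) (hb : Bornology.IsBounded Ω) :
    ∃ χ : Eu n → ℝ, Good χ ∧ (∀ x, 0 ≤ χ x) ∧ (∀ x, χ x ≤ Ω.indicator (fun _ => 1) x) ∧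
      ∀ i x, S.u i x ≠ 0 → χ x = 1 := by
  have ht : IsClosed (⋃ i, tsupport (S.u i)) := isClosed_iUnion_of_finite fun i => isClosed_tsupport _
  have hts : (⋃ i, tsupport (S.u i)) ⊆ Ω := iUnion_subset fun i => S.supp i
  obtain ⟨f, hf, hr, hsup, h1⟩ := exists_contMDiff_support_eq_eq_one_iff (n := (⊤ : ℕ∞))
    (modelWithCornersSelf ℝ (Eu n)) ho ht hts
  have h01 : ∀ x, 0 ≤ f x ∧ f x ≤ 1 := fun x => hr ⟨x, rfl⟩
  refine ⟨f, ⟨?_, ?_⟩, fun x => (h01 x).1, fun x => ?_, fun i x hx => ?_⟩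
  · exact contMDiff_iff_contDiff.1 hf
  · rw [HasCompactSupport, tsupport, hsup]
    exact hb.isCompact_closure
  · by_cases hx : x ∈ Ω
    · rw [indicator_of_mem hx]
      exact (h01 x).2
    · rw [indicator_of_notMem hx]
      have : x ∉ Function.support f := by rwa [hsup]
      rw [Function.notMem_support] at this
      exact this.le
  · exact (h1 x).1 (mem_iUnion.2 ⟨i, subset_tsupport _ hx⟩)

theorem form_ge (S : Sys Ω lam N) {R s : ℝ} (hR : R ^ 2 = lam / (4 * π ^ 2)) (i : Fin N) :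
    s - R ^ 2 ≤ ∫ w, par s w * ‖𝓕 (toS (S.u i) (S.good i)) w‖ ^ 2 := by
  set p := toS (S.u i) (S.good i) with hp
  have hi1 : Integrable (fun w => ‖𝓕 p w‖ ^ 2) := integrable_norm_sq (𝓕 p)
  have hi2 : Integrable (fun w => ‖w‖ ^ 2 * ‖𝓕 p w‖ ^ 2) := integrable_normsq_mul p
  have h1 : ∫ w, ‖𝓕 p w‖ ^ 2 = 1 := by
    rw [hp, plancherel]
    have := S.orth i i
    simpa [pow_two] using this
  have h2 : ∫ w : Eu n, ‖w‖ ^ 2 * ‖𝓕 p w‖ ^ 2 ≤ R ^ 2 := by
    have h1 := energy_fourier (S.u i) (S.good i)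
    have h2 := S.energy (fun j => if j = i then 1 else 0)
    have h3 : lin S.u (fun j => if j = i then 1 else 0) = S.u i := by
      funext x
      simp [lin]
    rw [h3] at h2
    simp at h2
    rw [← h1] at h2
    rw [hR, le_div_iff₀ (by positivity)]
    linarith
  have h3 : ∫ w, (s * ‖𝓕 p w‖ ^ 2 - ‖w‖ ^ 2 * ‖𝓕 p w‖ ^ 2) ≤ ∫ w, par s w * ‖𝓕 p w‖ ^ 2 := by
    refine integral_mono ((hi1.const_mul _).sub hi2) ?_ fun w => ?_
    · have hs : ∀ w : Eu n, par s w ≤ |s| := fun w =>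
        max_le ((by nlinarith [sq_nonneg ‖w‖, le_abs_self s])) (abs_nonneg _)
      refine hi1.bdd_mul (c := |s|) (continuous_par s).aestronglyMeasurable ?_
      refine Eventually.of_forall fun w => ?_
      rw [Real.norm_eq_abs, abs_of_nonneg (par_nonneg _ _)]
      exact hs w
    · simp only []
      have h4 : s - ‖w‖ ^ 2 ≤ par s w := le_max_left _ _
      nlinarith [mul_le_mul_of_nonneg_right h4 (sq_nonneg ‖𝓕 p w‖)]
  rw [integral_sub (hi1.const_mul _) hi2, integral_const_mul, h1] at h3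
  linarith

theorem core (S : Sys Ω lam N) (hn : 1 ≤ n) (ho : IsOpen Ω) (hb : Bornology.IsBounded Ω)
    {R ρ : ℝ} (hR0 : 0 < R) (hR : R ^ 2 = lam / (4 * π ^ 2))
    (hρ : 0 < ρ) (hρ2 : ρ ^ 2 * n = 12 * R ^ 2)
    (hvol : tau n * ρ ^ n * (volume Ω).toReal ≤ 1) :
    (N : ℝ) * (4 * R ^ 2 / n) ^ 2 ≤
      tau n * (8 / (((n : ℝ) + 2) * ((n : ℝ) + 4))) * √(R ^ 2 * ((n + 4) / n)) ^ (n + 4) *
        (exp (-(3 / 2)) * ((volume Ω).toReal *
          (1 + 3 / ((n : ℝ) + 2) + 16 / (((n : ℝ) + 2) * ((n : ℝ) + 4))))) := by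
  have hn0 : (0 : ℝ) < n := by
    have : 0 < n := by omega
    exact_mod_cast this
  set v : ℝ := (volume Ω).toReal with hv
  have hv0 : 0 ≤ v := ENNReal.toReal_nonneg
  set s : ℝ := R ^ 2 * ((n + 4) / n) with hs
  have hs0 : 0 < s := by positivity
  have hsR : s - R ^ 2 = 4 * R ^ 2 / n := by
    rw [hs]
    field_simp
    ring
  have hk0 : 0 ≤ 4 * R ^ 2 / n := by positivity
  obtain ⟨χ, hχ, hχ0, hχ1, hχu⟩ := exists_cutoff S ho hb
  have hint : Integrable (Ω.indicator fun _ => (1 : ℝ)) := by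
    rw [integrable_indicator_iff ho.measurableSet]
    exact integrableOn_const (hs := hb.measure_lt_top.ne)
  have hintv : ∫ x, Ω.indicator (fun _ => (1 : ℝ)) x = v := by
    rw [integral_indicator_const _ ho.measurableSet, smul_eq_mul, mul_one]
    rfl
  have hχi : Integrable χ := hχ.1.continuous.integrable_of_hasCompactSupport hχ.2
  have hχv : ∫ x, χ x ≤ v := by
    rw [← hintv]
    exact integral_mono hχi hint hχ1
  have hχle1 : ∀ x, χ x ≤ 1 := fun x => (hχ1 x).trans (by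
    by_cases hx : x ∈ Ω
    · rw [indicator_of_mem hx]
    · rw [indicator_of_notMem hx]
      norm_num)
  have hχv2 : ∫ x, χ x ^ 2 ≤ v := by
    refine le_trans ?_ hχv
    refine integral_mono (Good.norm_sq_integrable hχ) hχi fun x => ?_
    simp only []
    nlinarith [hχ0 x, hχle1 x]
  set G : Eu n → ℝ := fun z => ‖𝓕 (toS χ hχ) z‖ ^ 2 with hG
  have hGi : Integrable G := integrable_norm_sq _
  have hGc : Continuous G := (𝓕 (toS χ hχ)).continuous.norm.pow 2
  have hG0 : ∀ z, 0 ≤ G z := fun z => by positivity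
  have hGv : ∀ z, G z ≤ v ^ 2 := by
    intro z
    have h1 := norm_fourier_le (toS χ hχ) z
    have h2 : ∫ x, ‖toS χ hχ x‖ = ∫ x, χ x := by
      congr 1
      funext x
      rw [toS_apply, Complex.norm_real, Real.norm_eq_abs, abs_of_nonneg (hχ0 x)]
    rw [h2] at h1
    exact pow_le_pow_left₀ (norm_nonneg _) (h1.trans hχv) 2
  have hGI : ∫ z, G z ≤ v := by
    rw [hG, plancherel]
    exact hχv2
  have h1 : (N : ℝ) * (4 * R ^ 2 / n) ^ 2 ≤
      ∑ i, (∫ w, par s w * ‖𝓕 (toS (S.u i) (S.good i)) w‖ ^ 2) ^ 2 := by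
    have h2 : ∑ _i : Fin N, (4 * R ^ 2 / n) ^ 2 ≤
        ∑ i, (∫ w, par s w * ‖𝓕 (toS (S.u i) (S.good i)) w‖ ^ 2) ^ 2 := by
      refine Finset.sum_le_sum fun i _ => ?_
      refine pow_le_pow_left₀ hk0 ?_ 2
      rw [← hsR]
      exact form_ge S hR i
    simpa using h2
  refine h1.trans ((trace_le S (integrable_par s) hχ hχ0 hχu).trans ?_)
  rw [four_fold (integrable_par s) hχ]
  have h3 := corr_le s hs0.le hGi hGc hG0 _ hGv
  refine h3.trans ?_
  set c : ℝ := tau n * (8 / (((n : ℝ) + 2) * ((n : ℝ) + 4))) * √s ^ (n + 4) with hc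
  have hc0 : 0 ≤ c := mul_nonneg (mul_nonneg (tau_pos n).le (by positivity)) (by positivity)
  set b : ℝ := (n + 4) / (8 * s) with hbd
  have hb0 : 0 < b := by positivity
  have hbρ : b * ρ ^ 2 = 3 / 2 := by
    have e : ρ ^ 2 = 12 * R ^ 2 / n := by
      rw [eq_div_iff hn0.ne']
      exact hρ2
    rw [hbd, hs, e]
    field_simp
    norm_num
  have h4 : ∫ z, G z * ∫ w : Eu n, par (s - ‖z‖ ^ 2 / 4) w ^ 2 ≤
      ∫ z, c * (G z * exp (-(b * ‖z‖ ^ 2))) := by
    refine integral_mono_of_nonneg ?_ ?_ ?_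
    · exact Eventually.of_forall fun z => mul_nonneg (hG0 z)
        (integral_nonneg fun w => by positivity)
    · refine Integrable.const_mul ?_ _
      refine hGi.mul_bdd (c := 1) ?_ ?_
      · refine Continuous.aestronglyMeasurable ?_
        fun_prop
      · refine Eventually.of_forall fun z => ?_
        rw [Real.norm_eq_abs, abs_of_pos (Real.exp_pos _), Real.exp_le_one_iff]
        have : 0 ≤ b * ‖z‖ ^ 2 := by positivity
        linarith
    · refine Eventually.of_forall fun z => ?_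
      have h5 := int_corr_le n hn hs0 z
      have h6 := mul_le_mul_of_nonneg_left h5 (hG0 z)
      refine h6.trans (le_of_eq ?_)
      rw [hc]
      ring
  refine h4.trans ?_
  rw [integral_const_mul]
  exact mul_le_mul_of_nonneg_left (bath hn hGi hG0 hv0 hρ hbρ hGv hGI hvol) hc0

end Pool.Agent.W_MP_1ab439_h2
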