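import Pool.Agent.W_MP_1ab439_an.Assemble

set_option autoImplicit false
set_option maxSynthPendingDepth 3

open MeasureTheory SchwartzMap FourierTransform Real Filter Topology
open scoped SchwartzMap ENNReal ComplexConjugate

namespace Pool.Agent.W_MP_1ab439_h2

open Pool.Agent.W_MP_1ab439_an

variable {n : ℕ}

/-- The character `exp (2 pi i <w, x>)`. -/
noncomputable def ch (w x : Eu n) : ℂ := ((Real.fourierChar (inner ℝ w x) : Circle) : ℂ)

theorem norm_ch (w x : Eu n) : ‖ch w x‖ = 1 := Circle.norm_coe _

theorem continuous_ch : Continuous (fun z : Eu n × Eu n => ch z.1 z.2) := by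
  unfold ch
  exact continuous_subtype_val.comp (Real.continuous_fourierChar.comp (by fun_prop))

theorem continuous_ch_comp {X : Type*} [TopologicalSpace X] {f g : X → Eu n}
    (hf : Continuous f) (hg : Continuous g) : Continuous (fun z => ch (f z) (g z)) := by
  have h := continuous_ch.comp (hf.prodMk hg)
  exact h

theorem conj_ch (w x : Eu n) : conj (ch w x) = ch w (-x) := by
  unfold ch
  rw [inner_neg_right, ← Circle.coe_inv_eq_conj, AddChar.map_neg_eq_inv]

theorem ch_comm (w x : Eu n) : ch w x = ch x w := by
  unfold ch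
  rw [real_inner_comm]

theorem ch_add (w x y : Eu n) : ch w (x + y) = ch w x * ch w y := by
  unfold ch
  rw [inner_add_right, AddChar.map_add_eq_mul, Circle.coe_mul]

theorem ch_sub (w x y : Eu n) : ch w (x - y) = ch w x * conj (ch w y) := by
  rw [sub_eq_add_neg, ch_add, conj_ch]

theorem fourier_apply (p : 𝓢(Eu n, ℂ)) (w : Eu n) :
    𝓕 p w = ∫ x, conj (ch w x) * p x := by
  rw [fourier_coe, Real.fourier_eq]
  congr 1
  funext x
  rw [Circle.smul_def, smul_eq_mul, conj_ch, ch, inner_neg_right, real_inner_comm]

theorem integrable_ker {F G : Eu n → ℂ} (hF : Integrable F) (hG : Integrable G) :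
    Integrable (fun z : Eu n × Eu n => F z.1 * G z.2 * ch z.2 z.1) (volume.prod volume) := by
  refine (hF.mul_prod hG).mul_bdd (c := 1) ?_ ?_
  · exact (continuous_ch_comp continuous_snd continuous_fst).aestronglyMeasurable
  · exact Eventually.of_forall fun z => (norm_ch _ _).le

/-- The convolution kernel of the multiplier `f`. -/
noncomputable def K (f : Eu n → ℂ) (z : Eu n) : ℂ := ∫ w, f w * ch w z

/-- The multiplier `f` applied to `p`. -/
noncomputable def H (f : Eu n → ℂ) (p : 𝓢(Eu n, ℂ)) (x : Eu n) : ℂ :=
  ∫ w, f w * 𝓕 p w * ch w x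

theorem continuous_K {f : Eu n → ℂ} (hf : Integrable f) : Continuous (K f) := by
  unfold K
  refine continuous_of_dominated (bound := fun w => ‖f w‖) ?_ ?_ hf.norm ?_
  · intro z
    exact hf.aestronglyMeasurable.mul
      (continuous_ch_comp continuous_id continuous_const).aestronglyMeasurable
  · intro z
    refine Eventually.of_forall fun w => ?_
    rw [norm_mul, norm_ch, mul_one]
  · refine Eventually.of_forall fun w => ?_
    exact continuous_const.mul (continuous_ch_comp continuous_const continuous_id)

theorem norm_K_le (f : Eu n → ℂ) (z : Eu n) : ‖K f z‖ ≤ ∫ w, ‖f w‖ := by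
  unfold K
  refine (norm_integral_le_integral_norm _).trans (le_of_eq ?_)
  congr 1
  funext w
  rw [norm_mul, norm_ch, mul_one]

theorem H_eq_K (f : Eu n → ℂ) (p : 𝓢(Eu n, ℂ)) : H f p = K (fun w => f w * 𝓕 p w) := rfl

theorem integrable_mul_fourier {f : Eu n → ℂ} (hf : Integrable f) (p : 𝓢(Eu n, ℂ)) :
    Integrable (fun w => f w * 𝓕 p w) := by
  refine hf.mul_bdd (c := ∫ x, ‖p x‖) (𝓕 p).continuous.aestronglyMeasurable ?_
  exact Eventually.of_forall fun w => norm_fourier_le p w

/-- `H f p x = ∫ p y K f (x - y)`. -/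
theorem H_eq {f : Eu n → ℂ} (hf : Integrable f) (p : 𝓢(Eu n, ℂ)) (x : Eu n) :
    H f p x = ∫ y, p y * K f (x - y) := by
  have h1 : H f p x = ∫ w, ∫ y, p y * (f w * ch w x) * conj (ch w y) := by
    unfold H
    congr 1
    funext w
    rw [fourier_apply, mul_assoc, mul_comm (∫ x, conj (ch w x) * p x), ← mul_assoc,
      ← integral_const_mul]
    congr 1
    funext y
    ring
  have h2 : ∀ y, p y * K f (x - y) = ∫ w, p y * (f w * ch w x) * conj (ch w y) := by
    intro y
    unfold K
    rw [← integral_const_mul]
    congr 1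
    funext w
    rw [ch_sub]
    ring
  simp only [h2]
  rw [h1]
  refine integral_integral_swap ?_
  have h3 : Integrable (fun w => f w * ch w x) :=
    hf.mul_bdd (c := 1) (continuous_ch_comp continuous_id continuous_const).aestronglyMeasurable
      (Eventually.of_forall fun w => (norm_ch _ _).le)
  have h4 := (h3.mul_prod (p.integrable (μ := volume))).mul_bdd (c := 1) (g := fun z : Eu n × Eu n =>
    conj (ch z.1 z.2)) (by
      exact (Complex.continuous_conj.comp continuous_ch).aestronglyMeasurable)
      (Eventually.of_forall fun z => by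
        rw [RCLike.norm_conj, norm_ch])
  refine h4.congr (Eventually.of_forall fun z => ?_)
  simp only [Function.uncurry]
  ring

/-- The pairing of `p` with `H f q`. -/
theorem pairing {f : Eu n → ℂ} (hf : Integrable f) (p q : 𝓢(Eu n, ℂ)) :
    ∫ x, conj (p x) * H f q x = ∫ w, f w * (conj (𝓕 p w) * 𝓕 q w) := by
  have h1 : ∀ x, conj (p x) * H f q x =
      ∫ w, conj (p x) * (f w * 𝓕 q w) * ch w x := by
    intro x
    unfold H
    rw [← integral_const_mul]
    congr 1
    funext w
    ring
  have h2 : ∀ w, f w * (conj (𝓕 p w) * 𝓕 q w) =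
      ∫ x, conj (p x) * (f w * 𝓕 q w) * ch w x := by
    intro w
    rw [fourier_apply p w, ← integral_conj, mul_comm (∫ x, conj (conj (ch w x) * p x)),
      ← mul_assoc, ← integral_const_mul]
    congr 1
    funext x
    rw [map_mul, Complex.conj_conj]
    ring
  simp only [h1, h2]
  refine integral_integral_swap ?_
  have h3 : Integrable (fun x => conj (p x)) :=
    (Complex.conjCLE : ℂ ≃L[ℝ] ℂ).toContinuousLinearMap.integrable_comp p.integrable
  have h5 := integrable_ker h3 (integrable_mul_fourier hf q)
  exact h5.congr (Eventually.of_forall fun z => rfl)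

end Pool.Agent.W_MP_1ab439_h2
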