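import Pool.Agent.W_MP_1ab439_h2.Shift

set_option autoImplicit false
set_option maxSynthPendingDepth 3

open MeasureTheory Real Filter Topology Set

namespace Pool.Agent.W_MP_1ab439_h2

open Pool.Agent.W_MP_1ab439_an

/-- Volume of the unit ball. -/
noncomputable def tau (n : ℕ) : ℝ := volume.real (Metric.ball (0 : Eu n) 1)

theorem tau_pos (n : ℕ) : 0 < tau n := by
  unfold tau
  exact ENNReal.toReal_pos (Metric.measure_ball_pos _ _ one_pos).ne' measure_ball_lt_top.ne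

theorem radial_int (m : ℕ) {r : ℝ} (hr : 0 ≤ r) (g : ℝ → ℝ) (h : ∀ y, 0 ≤ y → r ≤ y → g y = 0) :
    ∫ w : Eu (m + 1), g ‖w‖ = ((m + 1 : ℕ) : ℝ) * (tau (m + 1) * ∫ y in (0 : ℝ)..r, y ^ m * g y) := by
  rw [integral_fun_norm_addHaar]
  simp only [finrank_euclideanSpace, Fintype.card_fin, smul_eq_mul, nsmul_eq_mul]
  have h1 : ∫ y in Ioi (0 : ℝ), y ^ (m + 1 - 1) * g y = ∫ y in Ioc (0 : ℝ) r, y ^ m * g y := by
    rw [Nat.add_sub_cancel]
    refine setIntegral_eq_of_subset_of_forall_sdiff_eq_zero measurableSet_Ioi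
      Ioc_subset_Ioi_self ?_
    intro y hy
    have hy1 : 0 < y := hy.1
    have hy2 : r ≤ y := by
      by_contra hlt
      exact hy.2 ⟨hy1, (not_le.1 hlt).le⟩
    rw [h y hy1.le hy2, mul_zero]
  rw [h1, ← intervalIntegral.integral_of_le hr]
  unfold tau
  ring

theorem int_par (n : ℕ) (hn : 1 ≤ n) {r : ℝ} (hr : 0 ≤ r) :
    ∫ w : Eu n, par (r ^ 2) w = tau n * (2 / ((n : ℝ) + 2)) * r ^ (n + 2) := by
  obtain ⟨m, rfl⟩ : ∃ m, n = m + 1 := ⟨n - 1, by omega⟩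
  have h := radial_int m hr (fun y => max (r ^ 2 - y ^ 2) 0) (by
    intro y hy hry
    have : r ^ 2 ≤ y ^ 2 := by gcongr
    exact max_eq_right (by linarith))
  unfold par
  rw [h]
  have h2 : ∫ y in (0 : ℝ)..r, y ^ m * max (r ^ 2 - y ^ 2) 0 =
      ∫ y in (0 : ℝ)..r, (r ^ 2 * y ^ m - y ^ (m + 2)) := by
    refine intervalIntegral.integral_congr fun y hy => ?_
    rw [uIcc_of_le hr] at hy
    have h3 : y ^ 2 ≤ r ^ 2 := pow_le_pow_left₀ hy.1 hy.2 2
    rw [max_eq_left (by linarith)]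
    ring
  rw [h2, intervalIntegral.integral_sub (Continuous.intervalIntegrable (by fun_prop) _ _)
    (Continuous.intervalIntegrable (by fun_prop) _ _), intervalIntegral.integral_const_mul,
    integral_pow, integral_pow]
  push_cast
  have e1 : (m : ℝ) + 1 ≠ 0 := by positivity
  have e2 : (m : ℝ) + 2 + 1 ≠ 0 := by positivity
  have e3 : (m : ℝ) + 1 + 2 ≠ 0 := by positivity
  simp only [ne_eq, Nat.succ_ne_zero, not_false_eq_true, zero_pow, sub_zero]
  field_simp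
  ring

theorem int_par_sq (n : ℕ) (hn : 1 ≤ n) {r : ℝ} (hr : 0 ≤ r) :
    ∫ w : Eu n, par (r ^ 2) w ^ 2 =
      tau n * (8 / (((n : ℝ) + 2) * ((n : ℝ) + 4))) * r ^ (n + 4) := by
  obtain ⟨m, rfl⟩ : ∃ m, n = m + 1 := ⟨n - 1, by omega⟩
  have h := radial_int m hr (fun y => max (r ^ 2 - y ^ 2) 0 ^ 2) (by
    intro y hy hry
    have : r ^ 2 ≤ y ^ 2 := by gcongr
    rw [max_eq_right (by linarith)]
    norm_num)
  unfold par
  rw [h]
  have h2 : ∫ y in (0 : ℝ)..r, y ^ m * max (r ^ 2 - y ^ 2) 0 ^ 2 =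
      ∫ y in (0 : ℝ)..r, (r ^ 4 * y ^ m - 2 * r ^ 2 * y ^ (m + 2) + y ^ (m + 4)) := by
    refine intervalIntegral.integral_congr fun y hy => ?_
    rw [uIcc_of_le hr] at hy
    have h3 : y ^ 2 ≤ r ^ 2 := pow_le_pow_left₀ hy.1 hy.2 2
    rw [max_eq_left (by linarith)]
    ring
  rw [h2, intervalIntegral.integral_add (Continuous.intervalIntegrable (by fun_prop) _ _)
    (Continuous.intervalIntegrable (by fun_prop) _ _),
    intervalIntegral.integral_sub (Continuous.intervalIntegrable (by fun_prop) _ _)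
    (Continuous.intervalIntegrable (by fun_prop) _ _), intervalIntegral.integral_const_mul,
    intervalIntegral.integral_const_mul,
    integral_pow, integral_pow, integral_pow]
  push_cast
  have e1 : (m : ℝ) + 1 ≠ 0 := by positivity
  have e2 : (m : ℝ) + 2 + 1 ≠ 0 := by positivity
  have e3 : (m : ℝ) + 1 + 2 ≠ 0 := by positivity
  have e4 : (m : ℝ) + 4 + 1 ≠ 0 := by positivity
  have e5 : (m : ℝ) + 1 + 4 ≠ 0 := by positivity
  simp only [ne_eq, Nat.succ_ne_zero, not_false_eq_true, zero_pow, sub_zero]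
  field_simp
  ring

theorem par_neg {n : ℕ} {t : ℝ} (ht : t ≤ 0) (w : Eu n) : par t w = 0 := by
  unfold par
  exact max_eq_right (by nlinarith [sq_nonneg ‖w‖])

theorem int_par_sq' (n : ℕ) (hn : 1 ≤ n) (t : ℝ) :
    ∫ w : Eu n, par t w ^ 2 =
      tau n * (8 / (((n : ℝ) + 2) * ((n : ℝ) + 4))) * √t ^ (n + 4) := by
  rcases le_or_gt t 0 with h | h
  · rw [Real.sqrt_eq_zero_of_nonpos h]
    simp [par_neg h]
  · rw [← int_par_sq n hn (Real.sqrt_nonneg t), Real.sq_sqrt h.le]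

theorem sqrt_bound {s : ℝ} (hs : 0 < s) (x : ℝ) :
    √(s - x / 4) ≤ √s * exp (-(x / (8 * s))) := by
  have h1 : s - x / 4 ≤ s * exp (-(x / (4 * s))) := by
    have h2 := Real.add_one_le_exp (-(x / (4 * s)))
    calc s - x / 4 = s * (-(x / (4 * s)) + 1) := by field_simp; ring
      _ ≤ _ := mul_le_mul_of_nonneg_left h2 hs.le
  calc √(s - x / 4) ≤ √(s * exp (-(x / (4 * s)))) := Real.sqrt_le_sqrt h1
    _ = √s * √(exp (-(x / (4 * s)))) := Real.sqrt_mul hs.le _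
    _ = √s * exp (-(x / (8 * s))) := by
      congr 1
      rw [show exp (-(x / (4 * s))) = exp (-(x / (8 * s))) ^ 2 by
        rw [← Real.exp_nat_mul]
        congr 1
        push_cast
        field_simp
        ring, Real.sqrt_sq (Real.exp_pos _).le]

/-- Gaussian bound of the self-correlation. -/
theorem int_corr_le (n : ℕ) (hn : 1 ≤ n) {s : ℝ} (hs : 0 < s) (z : Eu n) :
    ∫ w : Eu n, par (s - ‖z‖ ^ 2 / 4) w ^ 2 ≤
      tau n * (8 / (((n : ℝ) + 2) * ((n : ℝ) + 4))) * √s ^ (n + 4) *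
        exp (-((n + 4) / (8 * s) * ‖z‖ ^ 2)) := by
  rw [int_par_sq' n hn]
  have h := sqrt_bound hs (‖z‖ ^ 2)
  have h2 : √(s - ‖z‖ ^ 2 / 4) ^ (n + 4) ≤ (√s * exp (-(‖z‖ ^ 2 / (8 * s)))) ^ (n + 4) := by
    gcongr
  have h3 : (√s * exp (-(‖z‖ ^ 2 / (8 * s)))) ^ (n + 4) =
      √s ^ (n + 4) * exp (-((n + 4) / (8 * s) * ‖z‖ ^ 2)) := by
    rw [mul_pow, ← Real.exp_nat_mul]
    congr 2
    push_cast
    ring
  rw [h3] at h2
  have h4 : 0 ≤ tau n * (8 / (((n : ℝ) + 2) * ((n : ℝ) + 4))) :=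
    mul_nonneg (tau_pos n).le (by positivity)
  calc _ ≤ tau n * (8 / (((n : ℝ) + 2) * ((n : ℝ) + 4))) * (√s ^ (n + 4) *
        exp (-((n + 4) / (8 * s) * ‖z‖ ^ 2))) := mul_le_mul_of_nonneg_left h2 h4
    _ = _ := by ring

end Pool.Agent.W_MP_1ab439_h2
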