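import Pool.Agent.W_MP_1ab439_h2.Swap

set_option autoImplicit false
set_option maxSynthPendingDepth 3

open MeasureTheory SchwartzMap FourierTransform Real Filter Topology Set
open scoped SchwartzMap ENNReal ComplexConjugate

namespace Pool.Agent.W_MP_1ab439_h2

open Pool.Agent.W_MP_1ab439_an

variable {n : ℕ}

/-- The truncated parabola. -/
noncomputable def par (s : ℝ) (w : Eu n) : ℝ := max (s - ‖w‖ ^ 2) 0

theorem par_nonneg (s : ℝ) (w : Eu n) : 0 ≤ par s w := le_max_right _ _

theorem continuous_par (s : ℝ) : Continuous (par s : Eu n → ℝ) := by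
  unfold par
  fun_prop

theorem par_le {s : ℝ} (hs : 0 ≤ s) (w : Eu n) : par s w ≤ s :=
  max_le (by nlinarith [sq_nonneg ‖w‖]) hs

theorem par_compact (s : ℝ) : HasCompactSupport (par s : Eu n → ℝ) := by
  refine HasCompactSupport.intro (isCompact_closedBall (0 : Eu n) (√s)) fun x hx => ?_
  rw [mem_closedBall_zero_iff, not_le] at hx
  unfold par
  rw [max_eq_right]
  have h1 : s < ‖x‖ ^ 2 := by
    by_cases hs : 0 ≤ s
    · calc s = √s ^ 2 := (Real.sq_sqrt hs).symm
        _ < ‖x‖ ^ 2 := by gcongr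
    · push Not at hs
      nlinarith [sq_nonneg ‖x‖]
  linarith

theorem integrable_par (s : ℝ) : Integrable (par s : Eu n → ℝ) :=
  (continuous_par s).integrable_of_hasCompactSupport (par_compact s)

theorem integrable_par_sq (s : ℝ) : Integrable (fun w : Eu n => par s w ^ 2) := by
  have hc : Continuous ((fun x : ℝ => x ^ 2) ∘ (par s : Eu n → ℝ)) :=
    (continuous_pow 2).comp (continuous_par s)
  have h : HasCompactSupport ((fun x : ℝ => x ^ 2) ∘ (par s : Eu n → ℝ)) :=
    (par_compact s).comp_left (g := fun x : ℝ => x ^ 2) (by simp)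
  exact (hc.integrable_of_hasCompactSupport h).congr (Eventually.of_forall fun _ => rfl)

theorem par_mul_le (s : ℝ) (z w : Eu n) :
    par s (w + (2 : ℝ)⁻¹ • z) * par s (w - (2 : ℝ)⁻¹ • z) ≤ par (s - ‖z‖ ^ 2 / 4) w ^ 2 := by
  have e1 : ‖w + (2 : ℝ)⁻¹ • z‖ ^ 2 = ‖w‖ ^ 2 + inner ℝ w z + ‖z‖ ^ 2 / 4 := by
    rw [norm_add_sq_real, inner_smul_right, norm_smul]
    norm_num
    ring
  have e2 : ‖w - (2 : ℝ)⁻¹ • z‖ ^ 2 = ‖w‖ ^ 2 - inner ℝ w z + ‖z‖ ^ 2 / 4 := by
    rw [norm_sub_sq_real, inner_smul_right, norm_smul]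
    norm_num
    ring
  unfold par
  rw [e1, e2]
  set b : ℝ := inner ℝ w z
  set a : ℝ := s - ‖z‖ ^ 2 / 4 - ‖w‖ ^ 2 with ha
  have r1 : s - (‖w‖ ^ 2 + b + ‖z‖ ^ 2 / 4) = a - b := by rw [ha]; ring
  have r2 : s - (‖w‖ ^ 2 - b + ‖z‖ ^ 2 / 4) = a + b := by rw [ha]; ring
  rw [r1, r2]
  rcases le_or_gt (a - b) 0 with h | h
  · rw [max_eq_right h, zero_mul]
    positivity
  rcases le_or_gt (a + b) 0 with h' | h'
  · rw [max_eq_right h', mul_zero]
    positivity
  have ha0 : 0 ≤ a := by linarith
  rw [max_eq_left h.le, max_eq_left h'.le, max_eq_left ha0]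
  nlinarith [sq_nonneg b]

/-- The correlation of `par s` with itself against a nonnegative weight. -/
theorem corr_le (s : ℝ) (hs : 0 ≤ s) {G : Eu n → ℝ} (hG : Integrable G) (hGc : Continuous G)
    (hG0 : ∀ z, 0 ≤ G z) (C : ℝ) (hC : ∀ z, G z ≤ C) :
    ∫ z : Eu n × Eu n, par s z.1 * par s z.2 * G (z.1 - z.2) ≤
      ∫ z, G z * ∫ w : Eu n, par (s - ‖z‖ ^ 2 / 4) w ^ 2 := by
  have hp : Integrable (par s : Eu n → ℝ) := integrable_par s
  have hi1 : Integrable (fun z : Eu n × Eu n => par s z.1 * par s z.2 * G (z.1 - z.2))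
      (volume.prod volume) := by
    refine (hp.mul_prod hp).mul_bdd (c := C) ?_ ?_
    · exact (hGc.comp (by fun_prop)).aestronglyMeasurable
    · refine Eventually.of_forall fun z => ?_
      rw [Real.norm_eq_abs, abs_of_nonneg (hG0 _)]
      exact hC _
  have h1 : ∫ z : Eu n × Eu n, par s z.1 * par s z.2 * G (z.1 - z.2) =
      ∫ y : Eu n, ∫ z : Eu n, par s (z + y) * par s y * G z := by
    rw [Measure.volume_eq_prod, integral_prod_symm _ hi1]
    congr 1
    funext y
    rw [← integral_add_right_eq_self (fun z => par s z * par s y * G (z - y)) y]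
    congr 1
    funext z
    rw [add_sub_cancel_right]
  have hi2 : Integrable (Function.uncurry fun (y z : Eu n) => par s (z + y) * par s y * G z)
      (volume.prod volume) := by
    have h := (hp.mul_prod hG).bdd_mul (c := s)
      (f := fun z : Eu n × Eu n => par s (z.2 + z.1)) (by
        exact ((continuous_par s).comp (by fun_prop)).aestronglyMeasurable)
      (Eventually.of_forall fun z => by
        rw [Real.norm_eq_abs, abs_of_nonneg (par_nonneg _ _)]
        exact par_le hs _)
    refine h.congr (Eventually.of_forall fun z => ?_)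
    simp only [Function.uncurry]
    ring
  rw [h1, integral_integral_swap hi2]
  refine integral_mono ?_ ?_ fun z => ?_
  · exact hi2.integral_prod_right
  · refine hG.mul_bdd (c := ∫ w : Eu n, par s w ^ 2) ?_ ?_
    · refine Measurable.aestronglyMeasurable ?_
      have hm : Measurable (Function.uncurry fun (z w : Eu n) => par (s - ‖z‖ ^ 2 / 4) w ^ 2) := by
        unfold par
        refine Continuous.measurable ?_
        fun_prop
      exact (hm.stronglyMeasurable.integral_prod_right (ν := volume)).measurable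
    · refine Eventually.of_forall fun z => ?_
      rw [Real.norm_eq_abs, abs_of_nonneg (integral_nonneg fun w => by positivity)]
      refine integral_mono (integrable_par_sq _) (integrable_par_sq _) fun w => ?_
      have h3 : par (s - ‖z‖ ^ 2 / 4) w ≤ par s w := by
        unfold par
        refine max_le_max ?_ le_rfl
        nlinarith [sq_nonneg ‖z‖]
      exact pow_le_pow_left₀ (par_nonneg _ _) h3 2
  · simp only []
    have h4 : ∫ y : Eu n, par s (z + y) * par s y * G z =
        G z * ∫ w : Eu n, par s (w + (2 : ℝ)⁻¹ • z) * par s (w - (2 : ℝ)⁻¹ • z) := by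
      rw [← integral_const_mul,
        ← integral_sub_right_eq_self (fun y => par s (z + y) * par s y * G z) ((2 : ℝ)⁻¹ • z)]
      congr 1
      funext w
      have e : z + (w - (2 : ℝ)⁻¹ • z) = w + (2 : ℝ)⁻¹ • z := by
        module
      rw [e]
      ring
    rw [h4]
    refine mul_le_mul_of_nonneg_left ?_ (hG0 z)
    refine integral_mono ?_ (integrable_par_sq _) fun w => par_mul_le s z w
    have h5 : Integrable (fun w : Eu n => par s (w - (2 : ℝ)⁻¹ • z)) :=
      hp.comp_sub_right _
    refine h5.bdd_mul (c := s) ((continuous_par s).comp (by fun_prop)).aestronglyMeasurable ?_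
    refine Eventually.of_forall fun w => ?_
    rw [Real.norm_eq_abs, abs_of_nonneg (par_nonneg _ _)]
    exact par_le hs _

end Pool.Agent.W_MP_1ab439_h2
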