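import Pool.Agent.W_MP_1ab439_h2.Trace

set_option autoImplicit false
set_option maxSynthPendingDepth 3

open MeasureTheory SchwartzMap FourierTransform Real Filter Topology
open scoped SchwartzMap ENNReal ComplexConjugate

namespace Pool.Agent.W_MP_1ab439_h2

open Pool.Agent.W_MP_1ab439_an

variable {n : ℕ}

theorem conj_K (f : Eu n → ℝ) (z : Eu n) :
    conj (K (fun w => (f w : ℂ)) z) = ∫ w, (f w : ℂ) * conj (ch w z) := by
  unfold K
  rw [← integral_conj]
  congr 1
  funext w
  rw [map_mul, Complex.conj_ofReal]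

theorem ch_sub_left (w w' x : Eu n) : ch (w - w') x = ch w x * conj (ch w' x) := by
  rw [ch_comm, ch_sub, ch_comm x w, ch_comm x w']

theorem four_fold {f : Eu n → ℝ} (hf : Integrable f) {χ : Eu n → ℝ} (hχ : Good χ) :
    ∫ x, χ x * ∫ y, χ y * ‖K (fun w => (f w : ℂ)) (x - y)‖ ^ 2 =
      ∫ z : Eu n × Eu n, f z.1 * f z.2 * ‖𝓕 (toS χ hχ) (z.1 - z.2)‖ ^ 2 := by
  set F : Eu n → ℂ := fun w => (f w : ℂ) with hF
  have hFi : Integrable F := hf.ofReal
  have hK : Continuous (K F) := continuous_K hFi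
  have hχi : Integrable (fun x => (χ x : ℂ)) :=
    (hχ.1.continuous.integrable_of_hasCompactSupport hχ.2).ofReal
  have hχr : Integrable χ := hχ.1.continuous.integrable_of_hasCompactSupport hχ.2
  -- the left side as an integral over the product
  have hL : ∫ x, χ x * ∫ y, χ y * ‖K F (x - y)‖ ^ 2 =
      ∫ z : Eu n × Eu n, χ z.1 * χ z.2 * ‖K F (z.1 - z.2)‖ ^ 2 := by
    have hi : Integrable (fun z : Eu n × Eu n => χ z.1 * χ z.2 * ‖K F (z.1 - z.2)‖ ^ 2)
        (volume.prod volume) := by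
      refine (hχr.mul_prod hχr).mul_bdd (c := (∫ w, ‖F w‖) ^ 2) ?_ ?_
      · exact ((hK.comp (by fun_prop)).norm.pow 2).aestronglyMeasurable
      · refine Eventually.of_forall fun z => ?_
        rw [norm_pow, norm_norm]
        have := norm_K_le F (z.1 - z.2)
        gcongr
    have h := integral_prod _ hi
    rw [Measure.volume_eq_prod, h]
    congr 1
    funext x
    rw [← integral_const_mul]
    congr 1
    funext y
    ring
  rw [hL]
  have hc : ((∫ z : Eu n × Eu n, χ z.1 * χ z.2 * ‖K F (z.1 - z.2)‖ ^ 2 : ℝ) : ℂ) =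
      ((∫ z : Eu n × Eu n, f z.1 * f z.2 * ‖𝓕 (toS χ hχ) (z.1 - z.2)‖ ^ 2 : ℝ) : ℂ) := by
    rw [← integral_complex_ofReal, ← integral_complex_ofReal]
    have h1 : ∀ z : Eu n × Eu n, ((χ z.1 * χ z.2 * ‖K F (z.1 - z.2)‖ ^ 2 : ℝ) : ℂ) =
        ∫ r : Eu n × Eu n, ((χ z.1 : ℂ) * (χ z.2 : ℂ)) *
          ((F r.1 * ch r.1 (z.1 - z.2)) * (F r.2 * conj (ch r.2 (z.1 - z.2)))) := by
      intro z
      rw [integral_const_mul, Measure.volume_eq_prod,
        integral_prod_mul (fun r => F r * ch r (z.1 - z.2))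
          (fun r => F r * conj (ch r (z.1 - z.2)))]
      have h2 : ∫ r, F r * conj (ch r (z.1 - z.2)) = conj (K F (z.1 - z.2)) := (conj_K f _).symm
      have h3 : ∫ r, F r * ch r (z.1 - z.2) = K F (z.1 - z.2) := rfl
      rw [h2, h3, Complex.mul_conj']
      push_cast
      ring
    have h4 : ∀ r : Eu n × Eu n, ((f r.1 * f r.2 * ‖𝓕 (toS χ hχ) (r.1 - r.2)‖ ^ 2 : ℝ) : ℂ) =
        ∫ z : Eu n × Eu n, ((χ z.1 : ℂ) * (χ z.2 : ℂ)) *
          ((F r.1 * ch r.1 (z.1 - z.2)) * (F r.2 * conj (ch r.2 (z.1 - z.2)))) := by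
      intro r
      have h5 : ∀ z : Eu n × Eu n, ((χ z.1 : ℂ) * (χ z.2 : ℂ)) *
          ((F r.1 * ch r.1 (z.1 - z.2)) * (F r.2 * conj (ch r.2 (z.1 - z.2)))) =
          (F r.1 * F r.2) * ((ch (r.1 - r.2) z.1 * (χ z.1 : ℂ)) *
            (conj (ch (r.1 - r.2) z.2) * (χ z.2 : ℂ))) := by
        intro z
        rw [ch_sub, ch_sub, ch_sub_left, ch_sub_left]
        simp only [map_mul, Complex.conj_conj]
        ring
      simp only [h5]
      rw [integral_const_mul, Measure.volume_eq_prod,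
        integral_prod_mul (fun z => ch (r.1 - r.2) z * (χ z : ℂ))
          (fun z => conj (ch (r.1 - r.2) z) * (χ z : ℂ))]
      have h6 : ∫ z, conj (ch (r.1 - r.2) z) * (χ z : ℂ) = 𝓕 (toS χ hχ) (r.1 - r.2) := by
        rw [fourier_apply]
        rfl
      have h7 : ∫ z, ch (r.1 - r.2) z * (χ z : ℂ) = conj (𝓕 (toS χ hχ) (r.1 - r.2)) := by
        rw [fourier_apply, ← integral_conj]
        congr 1
        funext z
        rw [map_mul, Complex.conj_conj, toS_apply, Complex.conj_ofReal]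
      rw [h6, h7, Complex.conj_mul']
      push_cast
      ring
    simp only [h1, h4]
    refine integral_integral_swap ?_
    have h8 : Integrable (fun z : Eu n × Eu n => (χ z.1 : ℂ) * (χ z.2 : ℂ)) volume :=
      hχi.mul_prod hχi
    have h9 : Integrable (fun z : Eu n × Eu n => F z.1 * F z.2) volume :=
      hFi.mul_prod hFi
    have h10 := (h8.mul_prod h9).mul_bdd (c := 1)
      (g := fun q : (Eu n × Eu n) × (Eu n × Eu n) =>
        ch q.2.1 (q.1.1 - q.1.2) * conj (ch q.2.2 (q.1.1 - q.1.2))) (by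
      refine Continuous.aestronglyMeasurable ?_
      exact (continuous_ch_comp (by fun_prop) (by fun_prop)).mul
        (Complex.continuous_conj.comp (continuous_ch_comp (by fun_prop) (by fun_prop))))
      (Eventually.of_forall fun q => by
        rw [norm_mul, RCLike.norm_conj, norm_ch, norm_ch, one_mul])
    refine h10.congr (Eventually.of_forall fun q => ?_)
    simp only [Function.uncurry]
    ring
  exact_mod_cast hc

end Pool.Agent.W_MP_1ab439_h2
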