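import Pool.Agent.W_MP_1ab439_h2.Ker

set_option autoImplicit false
set_option maxSynthPendingDepth 3

open MeasureTheory SchwartzMap FourierTransform Real Filter Topology
open scoped SchwartzMap ENNReal ComplexConjugate

namespace Pool.Agent.W_MP_1ab439_h2

open Pool.Agent.W_MP_1ab439_an

variable {n : ℕ} {Ω : Set (Eu n)} {lam : ℝ} {N : ℕ}

theorem Good.norm_sq_integrable {u : Eu n → ℝ} (hu : Good u) : Integrable (fun x => (u x) ^ 2) := by
  simpa [pow_two] using hu.integrable_mul hu

theorem integrable_chi_mul {χ : Eu n → ℝ} (hχ : Good χ) {g : Eu n → ℝ} (hg : Continuous g) :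
    Integrable (fun x => χ x * g x) :=
  (hχ.1.continuous.mul hg).integrable_of_hasCompactSupport hχ.2.mul_right

/-- The complex combination of the system. -/
noncomputable def comb (S : Sys Ω lam N) (c : Fin N → ℂ) (y : Eu n) : ℂ := ∑ i, c i * (S.u i y : ℂ)

theorem norm_comb_sq (S : Sys Ω lam N) (c : Fin N → ℂ) (y : Eu n) :
    ‖comb S c y‖ ^ 2 = (lin S.u (fun i => (c i).re) y) ^ 2 +
      (lin S.u (fun i => (c i).im) y) ^ 2 := by
  have h : comb S c y = ((lin S.u (fun i => (c i).re) y : ℝ) : ℂ) +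
      Complex.I * ((lin S.u (fun i => (c i).im) y : ℝ) : ℂ) := by
    unfold comb lin
    push_cast
    rw [Finset.mul_sum, ← Finset.sum_add_distrib]
    refine Finset.sum_congr rfl fun i _ => ?_
    apply Complex.ext <;> simp
  rw [h]
  exact norm_sq_re_im _ _

theorem integral_comb_sq (S : Sys Ω lam N) (c : Fin N → ℂ) :
    ∫ y, ‖comb S c y‖ ^ 2 = ∑ i, ‖c i‖ ^ 2 := by
  simp only [norm_comb_sq]
  rw [integral_add (Good.norm_sq_integrable (S.good_lin _))
    (Good.norm_sq_integrable (S.good_lin _)), S.integral_lin_sq,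
    S.integral_lin_sq, ← Finset.sum_add_distrib]
  refine Finset.sum_congr rfl fun i _ => ?_
  rw [← Complex.normSq_eq_norm_sq, Complex.normSq_apply]
  ring

theorem integrable_comb_sq (S : Sys Ω lam N) (c : Fin N → ℂ) :
    Integrable (fun y => ‖comb S c y‖ ^ 2) := by
  simp only [norm_comb_sq]
  exact (Good.norm_sq_integrable (S.good_lin _)).add (Good.norm_sq_integrable (S.good_lin _))

theorem integrable_toS_mul {u : Eu n → ℝ} (hu : Good u) {g : Eu n → ℂ} (hg : Continuous g) :
    Integrable (fun y => (u y : ℂ) * g y) := by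
  refine ((Complex.continuous_ofReal.comp hu.1.continuous).mul hg).integrable_of_hasCompactSupport ?_
  exact (hu.2.comp_left (g := ((↑) : ℝ → ℂ)) (by simp)).mul_right

/-- Bessel inequality for the kernel. -/
theorem bessel (S : Sys Ω lam N) {f : Eu n → ℂ} (hf : Integrable f) {χ : Eu n → ℝ}
    (hχ : Good χ) (h0 : ∀ x, 0 ≤ χ x) (h1 : ∀ i x, S.u i x ≠ 0 → χ x = 1) (x : Eu n) :
    ∑ i, ‖H f (toS (S.u i) (S.good i)) x‖ ^ 2 ≤ ∫ y, χ y * ‖K f (x - y)‖ ^ 2 := by
  set c : Fin N → ℂ := fun i => conj (H f (toS (S.u i) (S.good i)) x) with hc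
  have hK : Continuous (fun y => K f (x - y)) := (continuous_K hf).comp (by fun_prop)
  have hM : ((∑ i, ‖H f (toS (S.u i) (S.good i)) x‖ ^ 2 : ℝ) : ℂ) =
      ∫ y, comb S c y * K f (x - y) := by
    have h2 : ∀ y, comb S c y * K f (x - y) = ∑ i, c i * ((S.u i y : ℂ) * K f (x - y)) := by
      intro y
      rw [comb, Finset.sum_mul]
      refine Finset.sum_congr rfl fun i _ => ?_
      ring
    simp only [h2]
    rw [integral_finsetSum _ fun i _ => (integrable_toS_mul (S.good i) hK).const_mul _]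
    push_cast
    refine Finset.sum_congr rfl fun i _ => ?_
    rw [integral_const_mul]
    have h3 := H_eq hf (toS (S.u i) (S.good i)) x
    simp only [toS_apply] at h3
    rw [← h3, hc]
    exact (Complex.conj_mul' _).symm
  have hn : ∑ i, ‖c i‖ ^ 2 = ∑ i, ‖H f (toS (S.u i) (S.good i)) x‖ ^ 2 := by
    refine Finset.sum_congr rfl fun i _ => ?_
    rw [hc]
    simp only [RCLike.norm_conj]
  set M := ∑ i, ‖H f (toS (S.u i) (S.good i)) x‖ ^ 2 with hMd
  have hM0 : 0 ≤ M := Finset.sum_nonneg fun _ _ => by positivity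
  have h4 : M ≤ ∫ y, ‖comb S c y * K f (x - y)‖ := by
    have h5 := norm_integral_le_integral_norm (μ := volume) (fun y => comb S c y * K f (x - y))
    rw [← hM, Complex.norm_real, Real.norm_eq_abs, abs_of_nonneg hM0] at h5
    exact h5
  have hi : Integrable (fun y => χ y * ‖K f (x - y)‖ ^ 2) :=
    integrable_chi_mul hχ (hK.norm.pow 2)
  have h6 : ∫ y, ‖comb S c y * K f (x - y)‖ ≤
      ∫ y, (‖comb S c y‖ ^ 2 + χ y * ‖K f (x - y)‖ ^ 2) / 2 := by
    refine integral_mono ?_ (((integrable_comb_sq S c).add hi).div_const 2) fun y => ?_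
    · have h7 : Integrable (fun y => comb S c y * K f (x - y)) := by
        have h2 : ∀ y, comb S c y * K f (x - y) = ∑ i, c i * ((S.u i y : ℂ) * K f (x - y)) := by
          intro y
          rw [comb, Finset.sum_mul]
          refine Finset.sum_congr rfl fun i _ => ?_
          ring
        simp only [h2]
        exact integrable_finsetSum _ fun i _ => (integrable_toS_mul (S.good i) hK).const_mul _
      exact h7.norm
    · simp only []
      by_cases hy : ∀ i, S.u i y = 0
      · have h8 : comb S c y = 0 := by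
          unfold comb
          exact Finset.sum_eq_zero fun i _ => by rw [hy i]; simp
        rw [h8]
        have := h0 y
        simp only [zero_mul, norm_zero]
        positivity
      · push Not at hy
        obtain ⟨i, hi⟩ := hy
        rw [h1 i y hi, norm_mul]
        nlinarith [sq_nonneg (‖comb S c y‖ - ‖K f (x - y)‖)]
  rw [integral_div, integral_add (integrable_comb_sq S c) hi, integral_comb_sq, hn] at h6
  linarith

theorem continuous_inner_int {f : Eu n → ℂ} (hf : Integrable f) {χ : Eu n → ℝ}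
    (hχ : Good χ) : Continuous (fun x => ∫ y, χ y * ‖K f (x - y)‖ ^ 2) := by
  have hK := continuous_K hf
  refine continuous_of_dominated (bound := fun y => ‖χ y‖ * (∫ w, ‖f w‖) ^ 2) ?_ ?_ ?_ ?_
  · intro x
    refine (hχ.1.continuous.mul ?_).aestronglyMeasurable
    exact (hK.comp (by fun_prop)).norm.pow 2
  · intro x
    refine Eventually.of_forall fun y => ?_
    rw [norm_mul, norm_pow, norm_norm]
    gcongr
    exact norm_K_le f _
  · exact ((hχ.1.continuous.integrable_of_hasCompactSupport hχ.2).norm).mul_const _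
  · refine Eventually.of_forall fun y => ?_
    exact continuous_const.mul ((hK.comp (by fun_prop)).norm.pow 2)

/-- One quadratic form value is controlled. -/
theorem form_sq_le (S : Sys Ω lam N) {f : Eu n → ℝ} (hf : Integrable f) {χ : Eu n → ℝ}
    (hχ : Good χ) (h0 : ∀ x, 0 ≤ χ x) (h1 : ∀ i x, S.u i x ≠ 0 → χ x = 1) (i : Fin N) :
    (∫ w, f w * ‖𝓕 (toS (S.u i) (S.good i)) w‖ ^ 2) ^ 2 ≤
      ∫ x, χ x * ‖H (fun w => (f w : ℂ)) (toS (S.u i) (S.good i)) x‖ ^ 2 := by
  set p := toS (S.u i) (S.good i) with hp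
  set F : Eu n → ℂ := fun w => (f w : ℂ) with hF
  have hFi : Integrable F := hf.ofReal
  set A := ∫ w, f w * ‖𝓕 p w‖ ^ 2 with hA
  set B := ∫ x, χ x * ‖H F p x‖ ^ 2 with hB
  have hH : Continuous (H F p) := by
    rw [H_eq_K]
    exact continuous_K (integrable_mul_fourier hFi p)
  have hAc : (A : ℂ) = ∫ x, conj (p x) * H F p x := by
    rw [pairing hFi, hA, ← integral_complex_ofReal]
    congr 1
    funext w
    rw [Complex.conj_mul']
    push_cast
    rfl
  have hi : Integrable (fun x => χ x * ‖H F p x‖ ^ 2) := integrable_chi_mul hχ (hH.norm.pow 2)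
  have hu : Integrable (fun x => (S.u i x) ^ 2) := Good.norm_sq_integrable (S.good i)
  have hu1 : ∫ x, (S.u i x) ^ 2 = 1 := by
    have := S.orth i i
    simpa [pow_two] using this
  have hB0 : 0 ≤ B := integral_nonneg fun x => by
    have := h0 x
    positivity
  have key : ∀ t : ℝ, 2 * |t| * |A| ≤ 1 + t ^ 2 * B := by
    intro t
    have h5 := norm_integral_le_integral_norm (μ := volume) (fun y => conj (p y) * H F p y)
    rw [← hAc, Complex.norm_real, Real.norm_eq_abs] at h5
    have h7 : Integrable (fun y => conj (p y) * H F p y) := by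
      have : (fun y => conj (p y) * H F p y) = fun y => (S.u i y : ℂ) * H F p y := by
        funext y
        rw [hp, toS_apply, Complex.conj_ofReal]
      rw [this]
      exact integrable_toS_mul (S.good i) hH
    have h6 : ∫ y, 2 * |t| * ‖conj (p y) * H F p y‖ ≤
        ∫ y, ((S.u i y) ^ 2 + t ^ 2 * (χ y * ‖H F p y‖ ^ 2)) := by
      refine integral_mono (h7.norm.const_mul _) (hu.add (hi.const_mul _)) fun y => ?_
      simp only []
      have e1 : ‖conj (p y) * H F p y‖ = |S.u i y| * ‖H F p y‖ := by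
        rw [norm_mul, RCLike.norm_conj, hp, toS_apply, Complex.norm_real, Real.norm_eq_abs]
      rw [e1]
      by_cases hy : S.u i y = 0
      · rw [hy]
        have := h0 y
        simp only [abs_zero, zero_mul, mul_zero]
        positivity
      · rw [h1 i y hy, ← sq_abs (S.u i y), ← sq_abs t]
        nlinarith [sq_nonneg (|S.u i y| - |t| * ‖H F p y‖)]
    rw [integral_const_mul, integral_add hu (hi.const_mul _), integral_const_mul, hu1] at h6
    refine le_trans ?_ h6
    exact mul_le_mul_of_nonneg_left h5 (by positivity)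
  by_contra hlt
  push Not at hlt
  have hA0 : 0 < |A| := by
    rw [abs_pos]
    rintro h
    rw [h] at hlt
    norm_num at hlt
    linarith
  have h8 := key (|A|⁻¹)
  rw [abs_of_pos (inv_pos.2 hA0), mul_assoc, inv_mul_cancel₀ hA0.ne'] at h8
  have h9 : (|A|⁻¹) ^ 2 * B < 1 := by
    rw [inv_pow, sq_abs, inv_mul_lt_iff₀ (by rw [← sq_abs]; positivity), mul_one]
    exact hlt
  linarith

/-- The two-step trace inequality. -/
theorem trace_le (S : Sys Ω lam N) {f : Eu n → ℝ} (hf : Integrable f) {χ : Eu n → ℝ}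
    (hχ : Good χ) (h0 : ∀ x, 0 ≤ χ x) (h1 : ∀ i x, S.u i x ≠ 0 → χ x = 1) :
    ∑ i, (∫ w, f w * ‖𝓕 (toS (S.u i) (S.good i)) w‖ ^ 2) ^ 2 ≤
      ∫ x, χ x * ∫ y, χ y * ‖K (fun w => (f w : ℂ)) (x - y)‖ ^ 2 := by
  have hFi : Integrable (fun w => (f w : ℂ)) := hf.ofReal
  have hH : ∀ i, Continuous (H (fun w => (f w : ℂ)) (toS (S.u i) (S.good i))) := by
    intro i
    rw [H_eq_K]
    exact continuous_K (integrable_mul_fourier hFi _)
  calc ∑ i, (∫ w, f w * ‖𝓕 (toS (S.u i) (S.good i)) w‖ ^ 2) ^ 2
      ≤ ∑ i, ∫ x, χ x * ‖H (fun w => (f w : ℂ)) (toS (S.u i) (S.good i)) x‖ ^ 2 :=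
        Finset.sum_le_sum fun i _ => form_sq_le S hf hχ h0 h1 i
    _ = ∫ x, χ x * ∑ i, ‖H (fun w => (f w : ℂ)) (toS (S.u i) (S.good i)) x‖ ^ 2 := by
        simp only [Finset.mul_sum]
        rw [integral_finsetSum]
        intro i _
        exact integrable_chi_mul hχ ((hH i).norm.pow 2)
    _ ≤ _ := by
        refine integral_mono ?_ ?_ fun x => ?_
        · refine integrable_chi_mul hχ ?_
          exact continuous_finsetSum _ fun i _ => (hH i).norm.pow 2
        · exact integrable_chi_mul hχ (continuous_inner_int hFi hχ)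
        · exact mul_le_mul_of_nonneg_left (bessel S hFi hχ h0 h1 x) (h0 x)

end Pool.Agent.W_MP_1ab439_h2
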